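import Mathlib

/-! Rounding fractional vertex covers in bipartite graphs. (helper696) -/

set_option autoImplicit false

namespace Pool.Agent.H696R4

open MeasureTheory

theorem ind1 (b : ℝ) (hb : 0 ≤ b) :
    ∫ t in Set.Ioc (0 : ℝ) 1, (Set.Iic b).indicator (fun _ => (1 : ℝ)) t ≤ b := by
  rw [show (fun t => (Set.Iic b).indicator (fun _ => (1 : ℝ)) t) =
    (Set.Iic b).indicator (1 : ℝ → ℝ) from rfl]
  rw [integral_indicator_one measurableSet_Iic, measureReal_restrict_apply measurableSet_Iic]
  calc volume.real (Set.Iic b ∩ Set.Ioc 0 1) ≤ volume.real (Set.Ioc 0 b) := by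
        refine measureReal_mono ?_ (by simp)
        rintro t ⟨h1, h2⟩
        exact ⟨h2.1, h1⟩
    _ = b := by rw [Real.volume_real_Ioc_of_le hb]; ring

theorem ind2 (b : ℝ) (hb : 0 ≤ b) :
    ∫ t in Set.Ioc (0 : ℝ) 1, (Set.Ioi (1 - b)).indicator (fun _ => (1 : ℝ)) t ≤ b := by
  rw [show (fun t => (Set.Ioi (1 - b)).indicator (fun _ => (1 : ℝ)) t) =
    (Set.Ioi (1 - b)).indicator (1 : ℝ → ℝ) from rfl]
  rw [integral_indicator_one measurableSet_Ioi, measureReal_restrict_apply measurableSet_Ioi]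
  calc volume.real (Set.Ioi (1 - b) ∩ Set.Ioc 0 1) ≤ volume.real (Set.Ioc (1 - b) 1) := by
        refine measureReal_mono ?_ (by simp)
        rintro t ⟨h1, h2⟩
        exact ⟨h1, h2.2⟩
    _ = b := by rw [Real.volume_real_Ioc_of_le (by linarith)]; ring

theorem bip {V : Type} [DecidableEq V] (G : SimpleGraph V) (U : Finset V) (col : V → Bool)
    (hcol : ∀ u ∈ U, ∀ v ∈ U, G.Adj u v → col u ≠ col v) (b : V → ℝ) (hb : ∀ v, 0 ≤ b v)
    (hbe : ∀ u v, G.Adj u v → 1 ≤ b u + b v) :
    ∃ I ⊆ U, (∀ u ∈ I, ∀ v ∈ I, ¬ G.Adj u v) ∧ (U.card : ℝ) - I.card ≤ ∑ v ∈ U, b v := by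
  classical
  by_contra hcon
  push Not at hcon
  -- the indicator of the cover at level `t`
  let g : V → ℝ → ℝ := fun v t => if col v then (Set.Iic (b v)).indicator (fun _ => (1 : ℝ)) t
    else (Set.Ioi (1 - b v)).indicator (fun _ => (1 : ℝ)) t
  have hg : ∀ v, ∫ t in Set.Ioc (0 : ℝ) 1, g v t ≤ b v := by
    intro v
    by_cases h : col v
    · simp only [g, h, if_true]; exact ind1 _ (hb v)
    · simp only [g, h]; exact ind2 _ (hb v)
  have hgi : ∀ v, IntegrableOn (g v) (Set.Ioc (0 : ℝ) 1) := by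
    intro v
    have hc : IntegrableOn (fun _ : ℝ => (1 : ℝ)) (Set.Ioc (0 : ℝ) 1) := by
      rw [integrableOn_const_iff]; right; simp
    by_cases h : col v
    · simp only [g, h, if_true]; exact hc.indicator measurableSet_Iic
    · simp only [g, h]; exact hc.indicator measurableSet_Ioi
  -- the least possible value
  obtain ⟨S, hS⟩ : ∃ S, S = ∑ v ∈ U, b v := ⟨_, rfl⟩
  obtain ⟨N, hN⟩ : ∃ N : ℕ, N = ⌊S⌋₊ + 1 := ⟨_, rfl⟩
  have hS0 : 0 ≤ S := by rw [hS]; exact Finset.sum_nonneg (fun v _ => hb v)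
  have hlow : ∀ t : ℝ, (N : ℝ) ≤ ∑ v ∈ U, g v t := by
    intro t
    have hI := hcon (U.filter (fun v => g v t = 0)) (Finset.filter_subset _ _) ?_
    · rw [← hS] at hI
      have h1 : ∑ v ∈ U, g v t = ((U.filter (fun v => ¬ g v t = 0)).card : ℝ) := by
        rw [← Finset.sum_filter_add_sum_filter_not U (fun v => g v t = 0)]
        rw [Finset.sum_eq_zero (fun v hv => (Finset.mem_filter.1 hv).2), zero_add]
        rw [Finset.sum_congr rfl (g := fun _ => (1 : ℝ))]
        · simp
        · intro v hv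
          have h2 := (Finset.mem_filter.1 hv).2
          by_cases h : col v
          · simp only [g, h, if_true, Set.indicator_apply_eq_zero, not_forall] at h2 ⊢
            rw [Set.indicator_of_mem h2.1]
          · simp only [g, h] at h2 ⊢
            simp only [Bool.false_eq_true, if_false, Set.indicator_apply_eq_zero, not_forall] at h2 ⊢
            rw [Set.indicator_of_mem h2.1]
      have h3 := Finset.card_filter_add_card_filter_not (s := U) (fun v => g v t = 0)
      have h4 : ((U.filter (fun v => ¬ g v t = 0)).card : ℝ) =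
          (U.card : ℝ) - (U.filter (fun v => g v t = 0)).card := by
        rw [← h3]; push_cast; ring
      rw [h1]
      rw [← h4] at hI
      have h5 : ⌊S⌋₊ < (U.filter (fun v => ¬ g v t = 0)).card := (Nat.floor_lt hS0).2 hI
      rw [hN]
      exact_mod_cast h5
    · intro u hu v hv huv
      have hu1 := Finset.mem_filter.1 hu
      have hv1 := Finset.mem_filter.1 hv
      have hne := hcol u hu1.1 v hv1.1 huv
      have hsum := hbe u v huv
      have key : ∀ x y : V, col x = true → col y = false → g x t = 0 → g y t = 0 →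
          b x + b y < 1 := by
        intro x y hx hy h1 h2
        simp only [g, hx, hy, if_true, Bool.false_eq_true, if_false,
          Set.indicator_apply_eq_zero, Set.mem_Iic, Set.mem_Ioi] at h1 h2
        have h3 : ¬ t ≤ b x := fun hh => one_ne_zero (h1 hh)
        have h4 : ¬ 1 - b y < t := fun hh => one_ne_zero (h2 hh)
        linarith
      cases hcu : col u <;> cases hcv : col v
      · rw [hcu, hcv] at hne; exact hne rfl
      · have := key v u hcv hcu hv1.2 hu1.2; linarith
      · have := key u v hcu hcv hu1.2 hv1.2; linarith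
      · rw [hcu, hcv] at hne; exact hne rfl
  have hint : (N : ℝ) ≤ ∫ t in Set.Ioc (0 : ℝ) 1, ∑ v ∈ U, g v t := by
    have hc : IntegrableOn (fun _ : ℝ => (N : ℝ)) (Set.Ioc (0 : ℝ) 1) := by
      rw [integrableOn_const_iff]; right; simp
    have h1 : ∫ t in Set.Ioc (0 : ℝ) 1, (N : ℝ) ≤ ∫ t in Set.Ioc (0 : ℝ) 1, ∑ v ∈ U, g v t :=
      setIntegral_mono hc (integrable_finset_sum _ (fun v _ => hgi v)) hlow
    refine le_trans ?_ h1
    simp
  rw [integral_finset_sum _ (fun v _ => hgi v)] at hint
  have h2 : (N : ℝ) ≤ S := by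
    rw [hS]; exact hint.trans (Finset.sum_le_sum (fun v _ => hg v))
  have h3 := Nat.lt_floor_add_one S
  rw [hN] at h2
  push_cast at h2
  linarith

end Pool.Agent.H696R4
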