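import Mathlib

/-! Shortest odd closed walks are induced odd cycles. (helper696) -/

set_option autoImplicit false

namespace Pool.Agent.H696R4

variable {V : Type}

/-- a closed walk of length `m` in `U` -/
def OC (G : SimpleGraph V) (U : Finset V) (m : ℕ) (f : ℕ → V) : Prop :=
  (∀ i, i ≤ m → f i ∈ U) ∧ (∀ i, i < m → G.Adj (f i) (f (i + 1))) ∧ f m = f 0

theorem oc_inj {G : SimpleGraph V} {U : Finset V} {m : ℕ} {f : ℕ → V} (hm : Odd m)
    (h : OC G U m f) (hmin : ∀ m' g, Odd m' → OC G U m' g → m ≤ m') {i j : ℕ} (hij : i < j)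
    (hj : j < m) : f i ≠ f j := by
  intro he
  obtain ⟨h1, h2, h3⟩ := h
  obtain ⟨a, ha⟩ : ∃ a, a = j - i := ⟨_, rfl⟩
  rcases Nat.even_or_odd a with hae | hao
  · -- the other arc
    have hodd : Odd (m - a) := by
      obtain ⟨x, hx⟩ := hae; obtain ⟨y, hy⟩ := hm
      exact ⟨y - x, by omega⟩
    have := hmin (m - a) (fun k => if k ≤ i then f k else f (k + a)) hodd ⟨?_, ?_, ?_⟩
    · omega
    · intro k hk
      by_cases hki : k ≤ i
      · simp only [if_pos hki]; exact h1 k (by omega)
      · simp only [if_neg hki]; exact h1 _ (by omega)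
    · intro k hk
      by_cases hki : k < i
      · simp only [if_pos (show k ≤ i by omega), if_pos (show k + 1 ≤ i by omega)]
        exact h2 k (by omega)
      · by_cases hki2 : k = i
        · subst hki2
          simp only [if_pos (le_refl k), if_neg (show ¬ k + 1 ≤ k by omega)]
          rw [he]
          have : k + 1 + a = j + 1 := by omega
          rw [this]
          exact h2 j hj
        · simp only [if_neg (show ¬ k ≤ i by omega), if_neg (show ¬ k + 1 ≤ i by omega)]
          have : k + 1 + a = (k + a) + 1 := by omega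
          rw [this]
          exact h2 _ (by omega)
    · simp only [if_neg (show ¬ m - a ≤ i by omega), if_pos (Nat.zero_le i)]
      rw [show m - a + a = m by omega]; exact h3
  · have := hmin a (fun k => f (i + k)) hao ⟨?_, ?_, ?_⟩
    · omega
    · intro k hk; exact h1 _ (by omega)
    · intro k hk
      have : i + (k + 1) = (i + k) + 1 := by omega
      simp only [this]
      exact h2 _ (by omega)
    · simp only [add_zero]
      rw [show i + a = j by omega]; exact he.symm

theorem oc_chord {G : SimpleGraph V} {U : Finset V} {m : ℕ} {f : ℕ → V} (hm : Odd m)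
    (h : OC G U m f) (hmin : ∀ m' g, Odd m' → OC G U m' g → m ≤ m') {i j : ℕ} (hij : i < j)
    (hj : j < m) (hadj : G.Adj (f i) (f j)) : j = i + 1 ∨ (i = 0 ∧ j = m - 1) := by
  by_contra hcon
  push Not at hcon
  obtain ⟨hc1, hc2⟩ := hcon
  obtain ⟨h1, h2, h3⟩ := h
  obtain ⟨a, ha⟩ : ∃ a, a = j - i := ⟨_, rfl⟩
  have ha2 : 2 ≤ a := by omega
  have ham : a + 2 ≤ m := by
    by_contra hh
    have : i = 0 := by omega
    exact hc2 this (by omega)
  rcases Nat.even_or_odd a with hae | hao
  · have hodd : Odd (a + 1) := Even.add_one hae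
    have := hmin (a + 1) (fun k => if k ≤ a then f (i + k) else f i) hodd ⟨?_, ?_, ?_⟩
    · omega
    · intro k hk
      by_cases hka : k ≤ a
      · simp only [if_pos hka]; exact h1 _ (by omega)
      · simp only [if_neg hka]; exact h1 _ (by omega)
    · intro k hk
      by_cases hka : k < a
      · simp only [if_pos (show k ≤ a by omega), if_pos (show k + 1 ≤ a by omega)]
        have : i + (k + 1) = (i + k) + 1 := by omega
        rw [this]; exact h2 _ (by omega)
      · have hka' : k = a := by omega
        simp only [if_pos (show k ≤ a by omega), if_neg (show ¬ k + 1 ≤ a by omega)]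
        rw [show i + k = j by omega]; exact hadj.symm
    · simp only [if_neg (show ¬ a + 1 ≤ a by omega), if_pos (Nat.zero_le a), add_zero]
  · have hodd : Odd (m - a + 1) := by
      obtain ⟨x, hx⟩ := hao; obtain ⟨y, hy⟩ := hm
      exact ⟨y - x, by omega⟩
    have := hmin (m - a + 1) (fun k => if k ≤ i then f k else f (k + (a - 1))) hodd ⟨?_, ?_, ?_⟩
    · omega
    · intro k hk
      by_cases hki : k ≤ i
      · simp only [if_pos hki]; exact h1 k (by omega)
      · simp only [if_neg hki]; exact h1 _ (by omega)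
    · intro k hk
      by_cases hki : k < i
      · simp only [if_pos (show k ≤ i by omega), if_pos (show k + 1 ≤ i by omega)]
        exact h2 k (by omega)
      · by_cases hki2 : k = i
        · subst hki2
          simp only [if_pos (le_refl k), if_neg (show ¬ k + 1 ≤ k by omega)]
          have : k + 1 + (a - 1) = j := by omega
          rw [this]
          exact hadj
        · simp only [if_neg (show ¬ k ≤ i by omega), if_neg (show ¬ k + 1 ≤ i by omega)]
          have : k + 1 + (a - 1) = (k + (a - 1)) + 1 := by omega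
          rw [this]
          exact h2 _ (by omega)
    · simp only [if_neg (show ¬ m - a + 1 ≤ i by omega), if_pos (Nat.zero_le i)]
      rw [show m - a + 1 + (a - 1) = m by omega]; exact h3

/-- a shortest odd closed walk gives an induced odd cycle -/
theorem oc_cycle {G : SimpleGraph V} {U : Finset V} {m : ℕ} {f : ℕ → V} (hm : Odd m)
    (h : OC G U m f) (hmin : ∀ m' g, Odd m' → OC G U m' g → m ≤ m') [NeZero m] :
    3 ≤ m ∧ ∃ c : ZMod m → V, Function.Injective c ∧ (∀ i, c i ∈ U) ∧
      (∀ i, G.Adj (c i) (c (i + 1))) ∧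
      ∀ i j, j ≠ i + 1 → i ≠ j + 1 → ¬ G.Adj (c i) (c j) := by
  have hm3 : 3 ≤ m := by
    by_contra hlt
    obtain ⟨y, hy⟩ := hm
    have : m = 1 := by omega
    subst this
    have h2 := h.2.1 0 (by omega)
    have h3 := h.2.2
    rw [zero_add, h3] at h2
    exact G.loopless.irrefl _ h2
  have hval : ∀ i : ZMod m, i.val < m := fun i => ZMod.val_lt i
  have hcast : ∀ i : ZMod m, ((i.val : ℕ) : ZMod m) = i := fun i => ZMod.natCast_zmod_val i
  have key : ∀ i j : ZMod m, i.val < j.val → j ≠ i + 1 → i ≠ j + 1 →
      ¬ G.Adj (f i.val) (f j.val) := by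
    intro i j hij h1 h2 hadj
    rcases oc_chord hm h hmin hij (hval j) hadj with h3 | ⟨h3, h4⟩
    · apply h1
      rw [← hcast j, h3, Nat.cast_add, hcast, Nat.cast_one]
    · apply h2
      have h5 : (((j.val + 1 : ℕ)) : ZMod m) = 0 := by
        rw [show j.val + 1 = m by omega]; exact ZMod.natCast_self m
      rw [Nat.cast_add, hcast, Nat.cast_one] at h5
      rw [h5, ← hcast i, h3]; simp
  refine ⟨hm3, fun i => f i.val, ?_, ?_, ?_, ?_⟩
  · intro i j hij
    rcases lt_trichotomy i.val j.val with h1 | h1 | h1
    · exact absurd hij (oc_inj hm h hmin h1 (hval j))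
    · exact ZMod.val_injective m h1
    · exact absurd hij.symm (oc_inj hm h hmin h1 (hval i))
  · intro i; exact h.1 _ (hval i).le
  · intro i
    have h1 : (i + 1).val = (i.val + 1) % m := by
      conv_lhs => rw [← hcast i]
      rw [← Nat.cast_one (R := ZMod m), ← Nat.cast_add, ZMod.val_natCast]
    show G.Adj (f i.val) (f (i + 1).val)
    rw [h1]
    rcases Nat.lt_or_ge (i.val + 1) m with h2 | h2
    · rw [Nat.mod_eq_of_lt h2]; exact h.2.1 _ (hval i)
    · have h3 : i.val + 1 = m := by have := hval i; omega
      have h4 := h.2.1 _ (hval i)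
      rw [h3, h.2.2] at h4
      rw [h3, Nat.mod_self]; exact h4
  · intro i j h1 h2
    rcases lt_trichotomy i.val j.val with h3 | h3 | h3
    · exact key i j h3 h1 h2
    · show ¬ G.Adj (f i.val) (f j.val)
      rw [h3]; exact G.loopless.irrefl _
    · intro hadj
      exact key j i h3 h2 h1 hadj.symm

/-- no odd closed walk: two-colourable -/
theorem two_col {G : SimpleGraph V} {U : Finset V}
    (h : ∀ m f, Odd m → ¬ OC G U m f) :
    ∃ col : V → Bool, ∀ u ∈ U, ∀ v ∈ U, G.Adj u v → col u ≠ col v := by
  classical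
  have h1 : (G.induce (U : Set V)).Colorable 2 := by
    rw [SimpleGraph.two_colorable_iff_forall_loop_even]
    intro u w
    by_contra hodd
    rw [Nat.not_even_iff_odd] at hodd
    refine h w.length (fun i => (w.getVert i).1) hodd ⟨?_, ?_, ?_⟩
    · intro i _; exact (w.getVert i).2
    · intro i hi
      have := w.adj_getVert_succ hi
      exact this
    · simp
  obtain ⟨C⟩ := h1
  refine ⟨fun v => if hv : v ∈ (U : Set V) then decide (C ⟨v, hv⟩ = 0) else false, ?_⟩
  intro u hu v hv huv hcol
  have hu' : u ∈ (U : Set V) := hu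
  have hv' : v ∈ (U : Set V) := hv
  simp only [dif_pos hu', dif_pos hv', decide_eq_decide] at hcol
  have hne : C ⟨u, hu'⟩ ≠ C ⟨v, hv'⟩ := C.valid (show (G.induce (U : Set V)).Adj _ _ from huv)
  have h2 : ∀ x : Fin 2, x = 0 ∨ x = 1 := by decide
  rcases h2 (C ⟨u, hu'⟩) with ha | ha <;> rcases h2 (C ⟨v, hv'⟩) with hb | hb
  · exact hne (ha.trans hb.symm)
  · rw [ha, hb] at hcol; simp at hcol
  · rw [ha, hb] at hcol; simp at hcol
  · exact hne (ha.trans hb.symm)

end Pool.Agent.H696R4
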