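import Pool.Agent.H175R.Energy.Rank
import Pool.Agent.H175R.Energy.Hole
import Pool.Agent.H696R4.OddW

/-! The positive part of the adjacency matrix on induced odd cycles. (helper696) -/

set_option autoImplicit false

open scoped Matrix ComplexOrder
open Pool.Agent.H175R.Energy

namespace Pool.Agent.H696R4

theorem cyc_seven {k : ℕ} [NeZero k] {P Q : Matrix (ZMod k) (ZMod k) ℝ}
    (hP : P.PosSemidef) (hQ : Q.PosSemidef) (h0 : cyc P 0 = cyc Q 0) (h1 : cyc P 1 = cyc Q 1 + k)
    (h2 : cyc P 2 = cyc Q 2) (h3 : cyc P 3 = cyc Q 3) (h4 : cyc P 4 = cyc Q 4)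
    (h5 : cyc P 5 = cyc Q 5) : 3 / 5 * (k : ℝ) ≤ cyc P 0 := by
  have a := corr hP ![33, 55, -65, -165, 330, -198] ![0, 1, 2, 3, 4, 5]
  have b := corr hQ ![33, -55, -65, 165, 330, 198] ![0, 1, 2, 3, 4, 5]
  have n1P := cyc_neg hP 1
  have n1Q := cyc_neg hQ 1
  have n2P := cyc_neg hP 2
  have n2Q := cyc_neg hQ 2
  have n3P := cyc_neg hP 3
  have n3Q := cyc_neg hQ 3
  have n4P := cyc_neg hP 4
  have n4Q := cyc_neg hQ 4
  have n5P := cyc_neg hP 5
  have n5Q := cyc_neg hQ 5
  have e1 : (1 : ZMod k) - 0 = 1 := by ring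
  have e2 : (2 : ZMod k) - 0 = 2 := by ring
  have e3 : (3 : ZMod k) - 0 = 3 := by ring
  have e4 : (4 : ZMod k) - 0 = 4 := by ring
  have e5 : (5 : ZMod k) - 0 = 5 := by ring
  have e6 : (0 : ZMod k) - 1 = -1 := by ring
  have e7 : (2 : ZMod k) - 1 = 1 := by ring
  have e8 : (3 : ZMod k) - 1 = 2 := by ring
  have e9 : (4 : ZMod k) - 1 = 3 := by ring
  have e10 : (5 : ZMod k) - 1 = 4 := by ring
  have e11 : (0 : ZMod k) - 2 = -2 := by ring
  have e12 : (1 : ZMod k) - 2 = -1 := by ring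
  have e13 : (3 : ZMod k) - 2 = 1 := by ring
  have e14 : (4 : ZMod k) - 2 = 2 := by ring
  have e15 : (5 : ZMod k) - 2 = 3 := by ring
  have e16 : (0 : ZMod k) - 3 = -3 := by ring
  have e17 : (1 : ZMod k) - 3 = -2 := by ring
  have e18 : (2 : ZMod k) - 3 = -1 := by ring
  have e19 : (4 : ZMod k) - 3 = 1 := by ring
  have e20 : (5 : ZMod k) - 3 = 2 := by ring
  have e21 : (0 : ZMod k) - 4 = -4 := by ring
  have e22 : (1 : ZMod k) - 4 = -3 := by ring
  have e23 : (2 : ZMod k) - 4 = -2 := by ring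
  have e24 : (3 : ZMod k) - 4 = -1 := by ring
  have e25 : (5 : ZMod k) - 4 = 1 := by ring
  have e26 : (0 : ZMod k) - 5 = -5 := by ring
  have e27 : (1 : ZMod k) - 5 = -4 := by ring
  have e28 : (2 : ZMod k) - 5 = -3 := by ring
  have e29 : (3 : ZMod k) - 5 = -2 := by ring
  have e30 : (4 : ZMod k) - 5 = -1 := by ring
  simp only [Fin.sum_univ_six, Matrix.cons_val_zero, Matrix.cons_val_one, Matrix.cons_val,
    sub_self, e1, e2, e3, e4, e5, e6, e7, e8, e9, e10, e11, e12, e13, e14, e15, e16, e17, e18, e19, e20, e21, e22, e23, e24, e25, e26, e27, e28, e29, e30, n1P, n1Q, n2P, n2Q, n3P, n3Q, n4P, n4Q, n5P, n5Q] at a b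
  have hk : (0 : ℝ) ≤ k := Nat.cast_nonneg k
  linarith

theorem cyc_three {P Q : Matrix (ZMod 3) (ZMod 3) ℝ}
    (hP : P.PosSemidef) (hQ : Q.PosSemidef) (h0 : cyc P 0 = cyc Q 0)
    (h1 : cyc P 1 = cyc Q 1 + 3) : (2 : ℝ) ≤ cyc P 0 := by
  have a := corr hP ![1, -1] ![0, 1]
  have b := corr hQ ![1, 1, 1] ![0, 1, 2]
  have n1P : cyc P 2 = cyc P 1 := cyc_neg hP 1
  have n1Q : cyc Q 2 = cyc Q 1 := cyc_neg hQ 1
  have e1 : (0 : ZMod 3) - 1 = 2 := by decide
  have e2 : (0 : ZMod 3) - 2 = 1 := by decide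
  have f1 : (1 : ZMod 3) - 0 = 1 := by decide
  have f2 : (1 : ZMod 3) - 2 = 2 := by decide
  have g1 : (2 : ZMod 3) - 0 = 2 := by decide
  have g2 : (2 : ZMod 3) - 1 = 1 := by decide
  simp only [Fin.sum_univ_three, Fin.sum_univ_two, Matrix.cons_val_zero, Matrix.cons_val_one,
    Matrix.cons_val, sub_self, e1, e2, f1, f2, g1, g2, n1P, n1Q] at a b
  linarith

theorem nz {k a : ℕ} (h0 : 0 < a) (h1 : a < k) : (a : ZMod k) ≠ 0 := by
  intro h
  rw [ZMod.natCast_eq_zero_iff] at h
  exact absurd (Nat.le_of_dvd h0 h) (by omega)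

variable {V : Type} [Fintype V] [DecidableEq V]

theorem odd_sum {B P Q : Matrix V V ℝ} (hP : P.PosSemidef) (hQ : Q.PosSemidef)
    (hB : B = P - Q) (hd : ∀ i, B i i = 0) {k : ℕ} [NeZero k] (hk : 3 ≤ k) (hodd : Odd k)
    (c : ZMod k → V) (h1 : ∀ i, B (c i) (c (i + 1)) = 1)
    (h0 : ∀ i j, j ≠ i + 1 → i ≠ j + 1 → B (c i) (c j) = 0) :
    3 / 5 * (k : ℝ) ≤ ∑ i, P (c i) (c i) := by
  have hPQ : ∀ i j, P i j - Q i j = B i j := fun i j => by rw [hB]; rfl
  have hdd : ∀ i, P i i = Q i i := fun i => by have := hPQ i i; rw [hd i] at this; linarith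
  have hPs := hP.submatrix c
  have hQs := hQ.submatrix c
  have e : ∑ i, P (c i) (c i) = cyc (P.submatrix c c) 0 := by
    simp [cyc, Matrix.submatrix_apply]
  have c0 : cyc (P.submatrix c c) 0 = cyc (Q.submatrix c c) 0 := by
    unfold cyc
    refine Finset.sum_congr rfl fun i _ => ?_
    simp only [Matrix.submatrix_apply, add_zero]
    exact hdd _
  have c1 : cyc (P.submatrix c c) 1 = cyc (Q.submatrix c c) 1 + k := by
    unfold cyc
    have : ∀ i, P.submatrix c c i (i + 1) = Q.submatrix c c i (i + 1) + 1 := fun i => by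
      simp only [Matrix.submatrix_apply]
      have := hPQ (c i) (c (i + 1))
      rw [h1 i] at this; linarith
    rw [Finset.sum_congr rfl (fun i _ => this i), Finset.sum_add_distrib]
    simp [ZMod.card]
  have cd : ∀ d : ZMod k, d - 1 ≠ 0 → d + 1 ≠ 0 →
      cyc (P.submatrix c c) d = cyc (Q.submatrix c c) d := by
    intro d hd1 hd2
    unfold cyc
    refine Finset.sum_congr rfl fun i _ => ?_
    simp only [Matrix.submatrix_apply]
    have := hPQ (c i) (c (i + d))
    rw [h0 i (i + d) (fun hh => hd1 (by linear_combination hh))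
      (fun hh => hd2 (by linear_combination -hh))] at this
    linarith
  rw [e]
  rcases Nat.lt_or_ge k 7 with hlt | hge
  · have hk' : k = 3 ∨ k = 5 := by
      obtain ⟨y, hy⟩ := hodd; omega
    rcases hk' with h | h
    · subst h
      have := cyc_three hPs hQs c0 (by rw [c1]; norm_num)
      norm_num; linarith
    · subst h
      have c2 := cd 2 (by decide) (by decide)
      have := cyc_five hPs hQs c0 (by rw [c1]; norm_num) c2
      norm_num; linarith
  · have z : ∀ a : ℕ, 0 < a → a < 7 → (a : ZMod k) ≠ 0 := fun a h0 h1 => nz h0 (by omega)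
    refine cyc_seven hPs hQs c0 c1 (cd 2 ?_ ?_) (cd 3 ?_ ?_) (cd 4 ?_ ?_) (cd 5 ?_ ?_)
    · have := z 1 (by norm_num) (by norm_num); intro hh; apply this; push_cast; linear_combination hh
    · have := z 3 (by norm_num) (by norm_num); intro hh; apply this; push_cast; linear_combination hh
    · have := z 2 (by norm_num) (by norm_num); intro hh; apply this; push_cast; linear_combination hh
    · have := z 4 (by norm_num) (by norm_num); intro hh; apply this; push_cast; linear_combination hh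
    · have := z 3 (by norm_num) (by norm_num); intro hh; apply this; push_cast; linear_combination hh
    · have := z 5 (by norm_num) (by norm_num); intro hh; apply this; push_cast; linear_combination hh
    · have := z 4 (by norm_num) (by norm_num); intro hh; apply this; push_cast; linear_combination hh
    · have := z 6 (by norm_num) (by norm_num); intro hh; apply this; push_cast; linear_combination hh

end Pool.Agent.H696R4
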